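import Mathlib
import Pool.Agent.Helper35.PI2.St

/-! Project PI2, module LT: integrability in the charts. -/

namespace Helper42.PI2

open Helper35.PI Helper35.PI2
open scoped ContDiff Manifold Topology ENNReal BigOperators
open MeasureTheory Set Filter

theorem integrableOn_chart {n : ℕ} {M : Type} [TopologicalSpace M] [ChartedSpace (EE n) M]
    (e : OpenPartialHomeomorph M (EE n)) (χ : M → ℝ) (hχ : Continuous χ)
    (hc : IsCompact (tsupport χ)) (hs : tsupport χ ⊆ e.source) (h : EE n → ℝ)
    (hh : ContinuousOn h e.target) :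
    IntegrableOn (fun y => χ (e.symm y) * h y) e.target := by
  have hK : IsCompact (e '' tsupport χ) := hc.image_of_continuousOn (e.continuousOn.mono hs)
  have hKT : e '' tsupport χ ⊆ e.target := by
    rintro _ ⟨q, hq, rfl⟩
    exact e.map_source (hs hq)
  have hcont : ContinuousOn (fun y => χ (e.symm y) * h y) e.target :=
    (hχ.comp_continuousOn e.continuousOn_symm).mul hh
  have h1 : IntegrableOn (fun y => χ (e.symm y) * h y) (e '' tsupport χ) :=
    (hcont.mono hKT).integrableOn_compact hK
  refine h1.of_forall_sdiff_eq_zero e.open_target.measurableSet ?_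
  rintro y ⟨hy, hyK⟩
  have h2 : e.symm y ∉ tsupport χ := by
    intro h3
    exact hyK ⟨e.symm y, h3, e.right_inv hy⟩
  rw [image_eq_zero_of_notMem_tsupport h2, zero_mul]

theorem integrableOn_chart_indicator {n : ℕ} {M : Type} [TopologicalSpace M]
    [ChartedSpace (EE n) M]
    (e : OpenPartialHomeomorph M (EE n)) (χ : M → ℝ) (hχ : Continuous χ)
    (hc : IsCompact (tsupport χ)) (hs : tsupport χ ⊆ e.source) (h : EE n → ℝ)
    (hh : ContinuousOn h e.target) (E : Set M) (hE : IsClosed E) :
    IntegrableOn (fun y => χ (e.symm y) * (indicator E (1 : M → ℝ) (e.symm y) * h y)) e.target := by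
  have h4 := integrableOn_chart e χ hχ hc hs _ hh
  set S : Set (EE n) := e.target \ (e.target ∩ e.symm ⁻¹' Eᶜ) with hS
  have hSm : MeasurableSet S := by
    refine e.open_target.measurableSet.diff ?_
    exact (e.continuousOn_symm.isOpen_inter_preimage e.open_target hE.isOpen_compl).measurableSet
  have h5 := Integrable.indicator (h4 : Integrable _ (volume.restrict e.target)) hSm
  refine h5.congr ?_
  refine (ae_restrict_iff' e.open_target.measurableSet).mpr (Eventually.of_forall fun y hy => ?_)
  by_cases hyE : e.symm y ∈ E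
  · have hyS : y ∈ S := ⟨hy, fun h => h.2 hyE⟩
    simp [indicator_of_mem hyS, indicator_of_mem hyE]
  · have hyS : y ∉ S := fun h => h.2 ⟨hy, hyE⟩
    simp [indicator_of_notMem hyS, indicator_of_notMem hyE]

theorem cont_slice {n : ℕ} (T : Set (EE n)) (a : EE n → ℝ → ℝ)
    (hS : ContinuousOn (fun z : EE n × ℝ => a z.1 z.2) (T ×ˢ Iio 0)) (t : ℝ) (ht : t < 0) :
    ContinuousOn (fun y => a y t) T := by
  have h3 : ContinuousOn (fun y : EE n => (y, t)) T := by fun_prop
  exact hS.comp h3 fun y hy => ⟨hy, ht⟩

theorem hLT (hEB : StEB) (_hI4 : StI4) : StLT := by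
  intro n N M _ _ _ F hF t ht c χ hPU i
  have hχ : Continuous (χ i) := (hPU.smooth i).continuous
  have hc := hPU.cpt i
  have hs := hPU.sub i
  have h1 := (hEB n N M F hF 1 one_pos).2.2.2 (c i)
  have hsg : ContinuousOn (fun y => sgm (loc (n := n) F (c i) t) y)
      (chartAt (EE n) (c i)).target :=
    cont_slice _ (fun y r => sgm (loc (n := n) F (c i) r) y) h1.2.2 t ht
  refine ⟨fun g hg => ?_, fun E hE => ?_, fun R hR => ?_⟩
  · exact integrableOn_chart (chartAt (EE n) (c i)) (χ i) hχ hc hs
      (fun y => g ((chartAt (EE n) (c i)).symm y) * sgm (loc (n := n) F (c i) t) y)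
      ((hg.comp_continuousOn (chartAt (EE n) (c i)).continuousOn_symm).mul hsg)
  · exact integrableOn_chart_indicator (chartAt (EE n) (c i)) (χ i) hχ hc hs
      (fun y => sgm (loc (n := n) F (c i) t) y) hsg E hE
  · have h6 := (hEB n N M F hF R hR).2.2.2 (c i)
    exact integrableOn_chart (chartAt (EE n) (c i)) (χ i) hχ hc hs
      (fun y => bE n R F ((chartAt (EE n) (c i)).symm y) t * sgm (loc (n := n) F (c i) t) y)
      (cont_slice _ (fun y r => bE n R F ((chartAt (EE n) (c i)).symm y) r *
        sgm (loc (n := n) F (c i) r) y) h6.2.1 t ht)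

end Helper42.PI2
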